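import Mathlib

/-!
# MP_c220a4_co: digraphs of every order `n = 6`, `n ≥ 8` which satisfy the Nash-Williams degree
conditions and have two vertices on no common directed cycle
-/

set_option autoImplicit false

namespace Pool.Agent.Results.MP_c220a4_co.ExplicitFamily

section defs
variable {n : ℕ} (G : Digraph (Fin n))

/-- The out-degree of a vertex. -/
noncomputable def outDeg (v : Fin n) : ℕ := Nat.card {w // G.Adj v w}

/-- The in-degree of a vertex. -/
noncomputable def inDeg (v : Fin n) : ℕ := Nat.card {w // G.Adj w v}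

/-- `d 1 ≤ d 2 ≤ ... ≤ d n` is the list of the `n` values of `f` in non-decreasing order. -/
def SortedList (f : Fin n → ℕ) (d : ℕ → ℕ) : Prop :=
  (∀ i j, 1 ≤ i → i ≤ j → j ≤ n → d i ≤ d j) ∧
    ∃ σ : Equiv.Perm (Fin n), ∀ i : Fin n, d (i.val + 1) = f (σ i)

/-- The Nash-Williams conditions for the sorted degree sequences. -/
def NashWilliams : Prop :=
  3 ≤ n ∧ ∃ dp dm : ℕ → ℕ, SortedList (outDeg G) dp ∧ SortedList (inDeg G) dm ∧
    ∀ i : ℕ, 1 ≤ i → 2 * i < n →
      (i + 1 ≤ dp i ∨ n - i ≤ dm (n - i)) ∧ (i + 1 ≤ dm i ∨ n - i ≤ dp (n - i))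

/-- Every vertex can be reached from every other vertex by a directed path. -/
def StronglyConnected : Prop := ∀ u v, Relation.ReflTransGen G.Adj u v

/-- `x` and `y` lie on a common directed cycle: there are `k ≥ 2` distinct vertices `f i`, indexed by
the integers modulo `k`, with arcs from `f i` to `f (i + 1)`, and `x`, `y` are among them. -/
def OnCommonCycle (x y : Fin n) : Prop :=
  ∃ (k : ℕ) (f : ZMod k → Fin n), 2 ≤ k ∧ Function.Injective f ∧
    (∀ i, G.Adj (f i) (f (i + 1))) ∧ x ∈ Set.range f ∧ y ∈ Set.range f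

/-- `G` has a directed cycle through all vertices. -/
def Hamiltonian : Prop :=
  ∃ f : ZMod n → Fin n, Function.Bijective f ∧ ∀ i, G.Adj (f i) (f (i + 1))

end defs

/-! ### sorted lists -/

theorem exists_sortedList {n : ℕ} (f : Fin n → ℕ) : ∃ d, SortedList f d := by
  refine ⟨fun i => if h : i - 1 < n then f (Tuple.sort f ⟨i - 1, h⟩) else 0, ?_, Tuple.sort f, ?_⟩
  · intro i j hi hij hj
    have h1 : i - 1 < n := by omega
    have h2 : j - 1 < n := by omega
    simp only [h1, h2, dif_pos]
    exact Tuple.monotone_sort f (show (⟨i - 1, h1⟩ : Fin n) ≤ ⟨j - 1, h2⟩ by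
      rw [Fin.mk_le_mk]; omega)
  · intro i
    have h1 : i.val + 1 - 1 < n := by have := i.isLt; omega
    simp only [h1, dif_pos]
    rfl

theorem le_sorted {n : ℕ} {f : Fin n → ℕ} {d : ℕ → ℕ} (hd : SortedList f d) {k t : ℕ}
    (hkn : k ≤ n) (hc : (Finset.univ.filter fun v => f v < t).card < k) : t ≤ d k := by
  by_contra hlt
  push Not at hlt
  obtain ⟨hm, σ, hσ⟩ := hd
  have hinj : Function.Injective fun j : Fin k => σ (Fin.castLE hkn j) := by
    intro i j h
    exact Fin.castLE_injective hkn (σ.injective h)
  have h1 : (Finset.univ.map ⟨_, hinj⟩ : Finset (Fin n)) ⊆ Finset.univ.filter fun v => f v < t := by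
    intro v hv
    simp only [Finset.mem_map, Finset.mem_univ, true_and, Function.Embedding.coeFn_mk] at hv
    obtain ⟨j, rfl⟩ := hv
    simp only [Finset.mem_filter, Finset.mem_univ, true_and]
    rw [← hσ]
    refine lt_of_le_of_lt (hm _ k ?_ ?_ hkn) hlt
    · exact Nat.succ_le_succ (Nat.zero_le _)
    · simp only [Fin.val_castLE]
      have := j.isLt
      omega
  have h2 := Finset.card_le_card h1
  rw [Finset.card_map, Finset.card_univ, Fintype.card_fin] at h2
  omega

theorem nashWilliams_of {n : ℕ} (G : Digraph (Fin n)) (hn : 3 ≤ n)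
    (h : ∀ i : ℕ, 1 ≤ i → 2 * i < n →
      ((Finset.univ.filter fun v => outDeg G v < i + 1).card < i ∨
        (Finset.univ.filter fun v => inDeg G v < n - i).card < n - i) ∧
      ((Finset.univ.filter fun v => inDeg G v < i + 1).card < i ∨
        (Finset.univ.filter fun v => outDeg G v < n - i).card < n - i)) : NashWilliams G := by
  obtain ⟨dp, hp⟩ := exists_sortedList (outDeg G)
  obtain ⟨dm, hm⟩ := exists_sortedList (inDeg G)
  refine ⟨hn, dp, dm, hp, hm, fun i hi hin => ⟨?_, ?_⟩⟩
  · rcases (h i hi hin).1 with h1 | h1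
    · exact Or.inl (le_sorted hp (by omega) h1)
    · exact Or.inr (le_sorted hm (by omega) h1)
  · rcases (h i hi hin).2 with h1 | h1
    · exact Or.inl (le_sorted hm (by omega) h1)
    · exact Or.inr (le_sorted hp (by omega) h1)

/-! ### closed walks -/

/-- A common cycle, written as a sequence. -/
theorem exists_seq {n : ℕ} {G : Digraph (Fin n)} {x y : Fin n} (hxy : x ≠ y)
    (h : OnCommonCycle G x y) : ∃ (k p : ℕ) (g : ℕ → Fin n), g 0 = x ∧ g k = x ∧ g p = y ∧
      0 < p ∧ p < k ∧ (∀ i j, i < k → j < k → g i = g j → i = j) ∧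
      ∀ j, G.Adj (g j) (g (j + 1)) := by
  obtain ⟨k, f, hk, hf, hA, ⟨i0, hi0⟩, ⟨j0, hj0⟩⟩ := h
  have : NeZero k := ⟨by omega⟩
  refine ⟨k, (j0 - i0).val, fun j => f (i0 + (j : ZMod k)), ?_, ?_, ?_, ?_, ?_, ?_, ?_⟩
  · simpa using hi0
  · simpa using hi0
  · change f (i0 + (((j0 - i0).val : ℕ) : ZMod k)) = y
    rw [ZMod.natCast_zmod_val, ← hj0]
    congr 1
    ring
  · rcases Nat.eq_zero_or_pos (j0 - i0).val with h0 | h0
    · exfalso
      rw [ZMod.val_eq_zero, sub_eq_zero] at h0
      exact hxy (by rw [← hi0, ← hj0, h0])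
    · exact h0
  · exact ZMod.val_lt _
  · intro i j hi hj h
    have h1 : ((i : ZMod k)) = (j : ZMod k) := by
      have := hf h
      simpa using this
    have h2 := congrArg ZMod.val h1
    rwa [ZMod.val_cast_of_lt hi, ZMod.val_cast_of_lt hj] at h2
  · intro j
    have := hA (i0 + (j : ZMod k))
    push_cast
    rw [← add_assoc]
    exact this

theorem not_hamiltonian {n : ℕ} {G : Digraph (Fin n)} (hn : 2 ≤ n) {x y : Fin n}
    (h : ¬ OnCommonCycle G x y) : ¬ Hamiltonian G := by
  rintro ⟨f, hf, hA⟩
  exact h ⟨n, f, hn, hf.1, hA, hf.2 x, hf.2 y⟩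

/-! ### counting -/

theorem card_le_of_sub {n : ℕ} (p : Fin n → Prop) [DecidablePred p] (S : Finset ℕ)
    (h : ∀ v : Fin n, p v → v.val ∈ S) : (Finset.univ.filter p).card ≤ S.card := by
  have h1 : (Finset.univ.filter p).map Fin.valEmbedding ⊆ S := by
    intro a ha
    simp only [Finset.mem_map, Finset.mem_filter, Finset.mem_univ, true_and,
      Fin.valEmbedding_apply] at ha
    obtain ⟨v, hv, rfl⟩ := ha
    exact h v hv
  have h2 := Finset.card_le_card h1
  rwa [Finset.card_map] at h2

/-- Lower bounds for the number of elements with a property, through the elements without it. -/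
theorem le_card_of_sub {n : ℕ} (p : Fin n → Prop) (S : Finset ℕ)
    (h : ∀ v : Fin n, ¬ p v → v.val ∈ S) : n ≤ Nat.card {w // p w} + S.card := by
  classical
  have h0 : Nat.card {w // p w} = (Finset.univ.filter p).card := by
    rw [Nat.card_eq_fintype_card, Fintype.card_subtype]
  have h1 := card_le_of_sub (fun v => ¬ p v) S h
  have h2 := Finset.card_filter_add_card_filter_not (s := (Finset.univ : Finset (Fin n))) p
  rw [Finset.card_univ, Fintype.card_fin] at h2
  rw [h0]
  omega

theorem two_le_card {n : ℕ} (p : Fin n → Prop) {u v : Fin n} (hu : p u) (hv : p v) (huv : u ≠ v) :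
    2 ≤ Nat.card {w // p w} := by
  classical
  rw [Nat.card_eq_fintype_card]
  exact Fintype.one_lt_card_iff.2 ⟨⟨u, hu⟩, ⟨v, hv⟩, fun h => huv (congrArg Subtype.val h)⟩

/-! ### the family, `n ≥ 8` -/

/-- With `m = n / 2`: the vertices `v ≥ m` dominate all other vertices; `m - 1` has the two
out-neighbours `m - 3`, `m - 2`; a vertex `u ≤ m - 2` has the out-neighbour `m` and the
out-neighbours `v` with `1 ≤ v ≤ max u (m - 4) + 1`. -/
def fam (n : ℕ) : Digraph (Fin n) where
  Adj u v := u ≠ v ∧ (n / 2 ≤ u.val ∨
    (u.val + 1 = n / 2 ∧ (v.val + 3 = n / 2 ∨ v.val + 2 = n / 2)) ∨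
    (u.val + 2 ≤ n / 2 ∧ (v.val = n / 2 ∨ (1 ≤ v.val ∧ (v.val + 3 ≤ n / 2 ∨ v.val ≤ u.val + 1)))))

theorem fam_adj {n : ℕ} {u v : Fin n} : (fam n).Adj u v ↔ u.val ≠ v.val ∧ (n / 2 ≤ u.val ∨
    (u.val + 1 = n / 2 ∧ (v.val + 3 = n / 2 ∨ v.val + 2 = n / 2)) ∨
    (u.val + 2 ≤ n / 2 ∧ (v.val = n / 2 ∨ (1 ≤ v.val ∧ (v.val + 3 ≤ n / 2 ∨ v.val ≤ u.val + 1))))) := by
  unfold fam
  simp only [ne_eq, Fin.ext_iff]

theorem fam_loopless {n : ℕ} (v : Fin n) : ¬ (fam n).Adj v v := by
  rw [fam_adj]; tauto

theorem fam_strong {n : ℕ} (hn : 8 ≤ n) : StronglyConnected (fam n) := by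
  intro u v
  have hm : n / 2 < n := by omega
  have hm3 : n / 2 - 3 < n := by omega
  -- everything reaches `m`
  have h1 : ∀ w : Fin n, w.val + 2 ≤ n / 2 → (fam n).Adj w ⟨n / 2, hm⟩ := by
    intro w hw
    rw [fam_adj]
    refine ⟨?_, Or.inr (Or.inr ⟨hw, Or.inl rfl⟩)⟩
    simp only
    omega
  have h2 : Relation.ReflTransGen (fam n).Adj u ⟨n / 2, hm⟩ := by
    by_cases hu : u.val = n / 2
    · have : u = ⟨n / 2, hm⟩ := Fin.ext hu
      rw [this]
    · by_cases hu2 : u.val + 1 = n / 2
      · refine Relation.ReflTransGen.tail (b := ⟨n / 2 - 3, hm3⟩)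
          (Relation.ReflTransGen.single ?_) (h1 _ ?_)
        · rw [fam_adj]; simp only; omega
        · simp only; omega
      · refine Relation.ReflTransGen.single ?_
        by_cases hu3 : u.val + 2 ≤ n / 2
        · exact h1 u hu3
        · rw [fam_adj]
          exact ⟨hu, Or.inl (by omega)⟩
  refine h2.trans ?_
  by_cases hv : v.val = n / 2
  · have : v = ⟨n / 2, hm⟩ := Fin.ext hv
    rw [this]
  · refine Relation.ReflTransGen.single ?_
    rw [fam_adj]; simp only; omega

theorem fam_no_cycle {n : ℕ} (hn : 8 ≤ n) {x y : Fin n} (hx : x.val = 0) (hy : y.val + 1 = n / 2) :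
    ¬ OnCommonCycle (fam n) x y := by
  intro hc
  have hxy : x ≠ y := fun h => by rw [h] at hx; omega
  obtain ⟨k, p, g, hg0, hgk, hgp, hp0, hpk, hinj, hA⟩ := exists_seq hxy hc
  have hv0 : (g 0).val = 0 := by rw [hg0]; exact hx
  have hvk : (g k).val = 0 := by rw [hgk]; exact hx
  have hvp : (g p).val + 1 = n / 2 := by rw [hgp]; exact hy
  have hadj : ∀ j, _ := fun j => fam_adj.1 (hA j)
  -- the last vertex before the return to `x` which is at most `m`
  have hex : ∃ q, q < k ∧ (g q).val ≤ n / 2 ∧ ∀ j, q < j → j < k → n / 2 < (g j).val := by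
    by_contra hno
    push Not at hno
    have hall : ∀ r, r ≤ k → ∀ j, k - r ≤ j → j < k → n / 2 < (g j).val := by
      intro r
      induction r with
      | zero => intro _ j h1 h2; omega
      | succ r ih =>
        intro hr j h1 h2
        by_cases hj : k - r ≤ j
        · exact ih (by omega) j hj h2
        · by_contra hle
          push Not at hle
          obtain ⟨j', h3, h4, h5⟩ := hno j h2 hle
          have := ih (by omega) j' (by omega) h4
          omega
    have := hall k le_rfl 0 (by omega) (by omega)
    omega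
  obtain ⟨q, hqk, hq1, hq2⟩ := hex
  have hq : (g q).val = n / 2 := by
    have h1 := hadj q
    by_cases h2 : q + 1 = k
    · rw [h2, hvk] at h1
      omega
    · have h3 := hq2 (q + 1) (by omega) (by omega)
      omega
  have hpq : p < q := by
    by_contra h1
    push Not at h1
    rcases Nat.lt_or_ge q p with h2 | h2
    · have := hq2 p h2 hpk
      omega
    · have : p = q := le_antisymm h2 h1
      rw [this] at hvp
      omega
  -- before `q` all vertices are below `m`
  have hlow : ∀ j, j < q → (g j).val < n / 2 := by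
    intro j
    induction j with
    | zero => intro _; omega
    | succ j ih =>
      intro hj
      have h1 := ih (by omega)
      have h2 := hadj j
      have h3 : (g (j + 1)).val ≠ n / 2 := by
        intro h4
        have h5 : g (j + 1) = g q := Fin.ext (by rw [h4, hq])
        have := hinj _ _ (by omega) hqk h5
        omega
      omega
  -- the vertices before `y`
  obtain ⟨p1, rfl⟩ : ∃ p1, p = p1 + 1 := ⟨p - 1, by omega⟩
  have hb : (g p1).val + 2 = n / 2 := by
    have h1 := hadj p1
    have h2 := hlow p1 (by omega)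
    omega
  have hp1 : p1 ≠ 0 := by
    intro h
    rw [h] at hb
    omega
  obtain ⟨p2, rfl⟩ : ∃ p2, p1 = p2 + 1 := ⟨p1 - 1, by omega⟩
  have ha : (g p2).val + 3 = n / 2 := by
    have h1 := hadj p2
    have h2 := hlow p2 (by omega)
    have h3 : (g p2).val + 1 ≠ n / 2 := by
      intro h4
      have h5 : g p2 = g (p2 + 1 + 1) := Fin.ext (by omega)
      have := hinj _ _ (by omega) (by omega) h5
      omega
    omega
  have hs := hadj (p2 + 1 + 1)
  have hs1 : (g (p2 + 1 + 1 + 1)).val + 3 = n / 2 ∨ (g (p2 + 1 + 1 + 1)).val + 2 = n / 2 := by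
    omega
  rcases hs1 with h | h
  · have h5 : g (p2 + 1 + 1 + 1) = g p2 := Fin.ext (by omega)
    have := hinj _ _ (by omega) (by omega) h5
    omega
  · have h5 : g (p2 + 1 + 1 + 1) = g (p2 + 1) := Fin.ext (by omega)
    have := hinj _ _ (by omega) (by omega) h5
    omega

/-! ### degrees in the family -/

theorem fam_out_top {n : ℕ} {v : Fin n} (hv : n / 2 ≤ v.val) : n ≤ outDeg (fam n) v + 1 := by
  have h := le_card_of_sub (fun w => (fam n).Adj v w) {v.val} (by
    intro w hw
    rw [fam_adj] at hw
    rw [Finset.mem_singleton]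
    omega)
  rwa [Finset.card_singleton] at h

theorem fam_out_low {n : ℕ} (hn : 8 ≤ n) {v : Fin n} (hv : v.val + 1 ≠ n / 2) :
    n / 2 ≤ outDeg (fam n) v + 3 := by
  have h := le_card_of_sub (fun w => (fam n).Adj v w)
    ({v.val, 0, n / 2 - 2, n / 2 - 1} ∪ Finset.Ico (n / 2 + 1) n) (by
    intro w hw
    have hwn := w.isLt
    rw [fam_adj] at hw
    simp only [Finset.mem_union, Finset.mem_insert, Finset.mem_singleton, Finset.mem_Ico]
    omega)
  have h2 := Finset.card_union_le ({v.val, 0, n / 2 - 2, n / 2 - 1} : Finset ℕ)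
    (Finset.Ico (n / 2 + 1) n)
  have h3 : ({v.val, 0, n / 2 - 2, n / 2 - 1} : Finset ℕ).card ≤ 4 := Finset.card_le_four
  rw [Nat.card_Ico] at h2
  change n ≤ outDeg (fam n) v + _ at h
  omega

theorem fam_out_two {n : ℕ} (hn : 8 ≤ n) (v : Fin n) : 2 ≤ outDeg (fam n) v := by
  have hm : n / 2 < n := by omega
  by_cases h1 : n / 2 ≤ v.val
  · have := fam_out_top h1
    omega
  · by_cases h2 : v.val + 1 = n / 2
    · refine two_le_card (fun w => (fam n).Adj v w) (u := ⟨n / 2 - 3, by omega⟩)
        (v := ⟨n / 2 - 2, by omega⟩) ?_ ?_ ?_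
      · rw [fam_adj]; refine ⟨?_, Or.inr (Or.inl ⟨h2, Or.inl ?_⟩)⟩ <;> simp only <;> omega
      · rw [fam_adj]; refine ⟨?_, Or.inr (Or.inl ⟨h2, Or.inr ?_⟩)⟩ <;> simp only <;> omega
      · rw [Ne, Fin.mk.injEq]; omega
    · by_cases h3 : v.val + 3 = n / 2
      · refine two_le_card (fun w => (fam n).Adj v w) (u := ⟨n / 2 - 2, by omega⟩)
          (v := ⟨n / 2, hm⟩) ?_ ?_ ?_
        · rw [fam_adj]
          refine ⟨?_, Or.inr (Or.inr ⟨by omega, Or.inr ⟨?_, Or.inr ?_⟩⟩)⟩ <;> simp only <;> omega
        · rw [fam_adj]
          refine ⟨?_, Or.inr (Or.inr ⟨by omega, Or.inl rfl⟩)⟩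
          simp only; omega
        · rw [Ne, Fin.mk.injEq]; omega
      · refine two_le_card (fun w => (fam n).Adj v w) (u := ⟨n / 2 - 3, by omega⟩)
          (v := ⟨n / 2, hm⟩) ?_ ?_ ?_
        · rw [fam_adj]
          refine ⟨?_, Or.inr (Or.inr ⟨by omega, Or.inr ⟨?_, Or.inl ?_⟩⟩)⟩ <;> simp only <;> omega
        · rw [fam_adj]
          refine ⟨?_, Or.inr (Or.inr ⟨by omega, Or.inl rfl⟩)⟩
          simp only; omega
        · rw [Ne, Fin.mk.injEq]; omega

/-- in-degrees of the vertices `1, …, m - 3` and `m` -/
theorem fam_in_high {n : ℕ} {v : Fin n} (hv1 : 1 ≤ v.val)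
    (hv : v.val + 3 ≤ n / 2 ∨ v.val = n / 2) : n ≤ inDeg (fam n) v + 2 := by
  have h := le_card_of_sub (fun w => (fam n).Adj w v) {v.val, n / 2 - 1} (by
    intro w hw
    rw [fam_adj] at hw
    rw [Finset.mem_insert, Finset.mem_singleton]
    omega)
  have h3 : ({v.val, n / 2 - 1} : Finset ℕ).card ≤ 2 := Finset.card_le_two
  change n ≤ inDeg (fam n) v + _ at h
  omega

theorem fam_in_b {n : ℕ} (hn : 8 ≤ n) {v : Fin n} (hv : v.val + 2 = n / 2) :
    n + 2 ≤ inDeg (fam n) v + n / 2 := by
  have h := le_card_of_sub (fun w => (fam n).Adj w v) (insert v.val (Finset.range (n / 2 - 3))) (by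
    intro w hw
    rw [fam_adj] at hw
    rw [Finset.mem_insert, Finset.mem_range]
    omega)
  have h3 := Finset.card_insert_le v.val (Finset.range (n / 2 - 3))
  rw [Finset.card_range] at h3
  change n ≤ inDeg (fam n) v + _ at h
  omega

theorem fam_in_y {n : ℕ} (hn : 8 ≤ n) {v : Fin n} (hv : v.val + 1 = n / 2) :
    n + 1 ≤ inDeg (fam n) v + n / 2 := by
  have h := le_card_of_sub (fun w => (fam n).Adj w v) (insert v.val (Finset.range (n / 2 - 2))) (by
    intro w hw
    rw [fam_adj] at hw
    rw [Finset.mem_insert, Finset.mem_range]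
    omega)
  have h3 := Finset.card_insert_le v.val (Finset.range (n / 2 - 2))
  rw [Finset.card_range] at h3
  change n ≤ inDeg (fam n) v + _ at h
  omega

theorem fam_in_x {n : ℕ} (hn : 8 ≤ n) {v : Fin n} (hv : v.val = 0) : n ≤ inDeg (fam n) v + n / 2 := by
  have h := le_card_of_sub (fun w => (fam n).Adj w v) (Finset.range (n / 2)) (by
    intro w hw
    rw [fam_adj] at hw
    rw [Finset.mem_range]
    omega)
  rw [Finset.card_range] at h
  exact h

theorem fam_nw {n : ℕ} (hn : 8 ≤ n) : NashWilliams (fam n) := by
  refine nashWilliams_of _ (by omega) fun i hi hin => ⟨?_, Or.inr ?_⟩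
  · by_cases h1 : i = 1
    · left
      subst h1
      rw [Finset.filter_false_of_mem (fun v _ => by have := fam_out_two hn v; omega)]
      simp
    · by_cases h2 : i + 4 ≤ n / 2
      · left
        refine lt_of_le_of_lt (card_le_of_sub _ {n / 2 - 1} ?_) ?_
        · intro v hv
          rw [Finset.mem_singleton]
          by_contra h3
          have := fam_out_low hn (v := v) (by omega)
          omega
        · rw [Finset.card_singleton]; omega
      · right
        by_cases h3 : i + 3 = n / 2
        · refine lt_of_le_of_lt (card_le_of_sub _ ({0, n / 2 - 2, n / 2 - 1} ∪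
            Finset.Ico (n / 2 + 1) n) ?_) ?_
          · intro v hv
            have hvn := v.isLt
            simp only [Finset.mem_union, Finset.mem_insert, Finset.mem_singleton, Finset.mem_Ico]
            by_contra h4
            have := fam_in_high (v := v) (by omega) (by omega)
            omega
          · have h4 := Finset.card_union_le ({0, n / 2 - 2, n / 2 - 1} : Finset ℕ)
              (Finset.Ico (n / 2 + 1) n)
            have h5 : ({0, n / 2 - 2, n / 2 - 1} : Finset ℕ).card ≤ 3 := Finset.card_le_three
            rw [Nat.card_Ico] at h4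
            omega
        · by_cases h3 : i + 2 = n / 2
          · refine lt_of_le_of_lt (card_le_of_sub _ ({0, n / 2 - 1} ∪
              Finset.Ico (n / 2 + 1) n) ?_) ?_
            · intro v hv
              have hvn := v.isLt
              simp only [Finset.mem_union, Finset.mem_insert, Finset.mem_singleton, Finset.mem_Ico]
              by_contra h4
              by_cases h6 : v.val + 2 = n / 2
              · have := fam_in_b hn h6
                omega
              · have := fam_in_high (v := v) (by omega) (by omega)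
                omega
            · have h4 := Finset.card_union_le ({0, n / 2 - 1} : Finset ℕ)
                (Finset.Ico (n / 2 + 1) n)
              have h5 : ({0, n / 2 - 1} : Finset ℕ).card ≤ 2 := Finset.card_le_two
              rw [Nat.card_Ico] at h4
              omega
          · by_cases h3 : i + 1 = n / 2
            · refine lt_of_le_of_lt (card_le_of_sub _ (insert 0 (Finset.Ico (n / 2 + 1) n)) ?_) ?_
              · intro v hv
                have hvn := v.isLt
                simp only [Finset.mem_insert, Finset.mem_Ico]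
                by_contra h4
                by_cases h6 : v.val + 2 = n / 2
                · have := fam_in_b hn h6
                  omega
                · by_cases h7 : v.val + 1 = n / 2
                  · have := fam_in_y hn h7
                    omega
                  · have := fam_in_high (v := v) (by omega) (by omega)
                    omega
              · have h4 := Finset.card_insert_le 0 (Finset.Ico (n / 2 + 1) n)
                rw [Nat.card_Ico] at h4
                omega
            · refine lt_of_le_of_lt (card_le_of_sub _ (Finset.Ico (n / 2 + 1) n) ?_) ?_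
              · intro v hv
                have hvn := v.isLt
                simp only [Finset.mem_Ico]
                by_contra h4
                by_cases h6 : v.val + 2 = n / 2
                · have := fam_in_b hn h6
                  omega
                · by_cases h7 : v.val + 1 = n / 2
                  · have := fam_in_y hn h7
                    omega
                  · by_cases h8 : v.val = 0
                    · have := fam_in_x hn h8
                      omega
                    · have := fam_in_high (v := v) (by omega) (by omega)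
                      omega
              · rw [Nat.card_Ico]
                omega
  · refine lt_of_le_of_lt (card_le_of_sub _ (Finset.range (n / 2)) ?_) ?_
    · intro v hv
      rw [Finset.mem_range]
      by_contra h1
      have := fam_out_top (v := v) (by omega)
      omega
    · rw [Finset.card_range]
      omega

/-! ### six vertices -/

/-- The arcs of the digraph on six vertices of our proof of the frozen statement. -/
def adj6 (u v : Fin 6) : Bool :=
  match u, v with
  | 0, 4 => true | 0, 5 => true
  | 1, 3 => true | 1, 5 => true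
  | 2, 0 => true | 2, 1 => true | 2, 3 => true | 2, 4 => true
  | 3, 1 => true | 3, 2 => true | 3, 4 => true | 3, 5 => true
  | 4, 0 => true | 4, 2 => true | 4, 3 => true | 4, 5 => true
  | 5, 3 => true | 5, 4 => true
  | _, _ => false

/-- The digraph on six vertices. -/
def six : Digraph (Fin 6) where
  Adj u v := adj6 u v = true

theorem six_loopless (v : Fin 6) : ¬ six.Adj v v := by
  change ¬ adj6 v v = true
  revert v
  decide

theorem six_strong : StronglyConnected six := by
  have h1 : ∀ a b : Fin 6, adj6 a b = true → Relation.ReflTransGen six.Adj a b := fun a b h =>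
    Relation.ReflTransGen.single h
  have hto : ∀ a : Fin 6, Relation.ReflTransGen six.Adj a 4 := by
    intro a
    fin_cases a
    · exact h1 0 4 (by decide)
    · exact (h1 1 3 (by decide)).trans (h1 3 4 (by decide))
    · exact h1 2 4 (by decide)
    · exact h1 3 4 (by decide)
    · exact Relation.ReflTransGen.refl
    · exact h1 5 4 (by decide)
  have hfrom : ∀ a : Fin 6, Relation.ReflTransGen six.Adj 4 a := by
    intro a
    fin_cases a
    · exact h1 4 0 (by decide)
    · exact (h1 4 2 (by decide)).trans (h1 2 1 (by decide))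
    · exact h1 4 2 (by decide)
    · exact h1 4 3 (by decide)
    · exact Relation.ReflTransGen.refl
    · exact h1 4 5 (by decide)
  intro u v
  exact (hto u).trans (hfrom v)

theorem six_outDeg : outDeg six = ![2, 2, 4, 4, 4, 2] := by
  funext v
  have h : outDeg six v = (Finset.univ.filter fun w => adj6 v w = true).card := by
    unfold outDeg six
    rw [Nat.card_eq_fintype_card, Fintype.card_subtype]
  rw [h]
  clear h
  revert v
  decide

theorem six_inDeg : inDeg six = ![2, 2, 2, 4, 4, 4] := by
  funext v
  have h : inDeg six v = (Finset.univ.filter fun w => adj6 w v = true).card := by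
    unfold inDeg six
    rw [Nat.card_eq_fintype_card, Fintype.card_subtype]
  rw [h]
  clear h
  revert v
  decide

theorem six_nw : NashWilliams six := by
  refine nashWilliams_of _ (by norm_num) fun i hi hin => ?_
  have hi3 : i < 3 := by omega
  rw [six_outDeg, six_inDeg]
  interval_cases i
  · decide
  · decide

theorem six_no_cycle : ¬ OnCommonCycle six 0 1 := by
  intro hc
  obtain ⟨k, p, g, hg0, hgk, hgp, hp0, hpk, hinj, hA⟩ := exists_seq (by decide) hc
  have hin0 : ∀ v : Fin 6, adj6 v 0 = true → v = 2 ∨ v = 4 := by decide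
  have hin1 : ∀ v : Fin 6, adj6 v 1 = true → v = 2 ∨ v = 3 := by decide
  have hin2 : ∀ v : Fin 6, adj6 v 2 = true → v = 3 ∨ v = 4 := by decide
  have hout0 : ∀ v : Fin 6, adj6 0 v = true → v = 4 ∨ v = 5 := by decide
  have hout1 : ∀ v : Fin 6, adj6 1 v = true → v = 3 ∨ v = 5 := by decide
  have hadj : ∀ j, adj6 (g j) (g (j + 1)) = true := hA
  have hne : ∀ i j, i < k → j < k → i ≠ j → g i ≠ g j := fun i j h1 h2 h3 h4 =>
    h3 (hinj i j h1 h2 h4)
  -- the successors
  have h1 : g 1 = 4 ∨ g 1 = 5 := by
    have := hadj 0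
    rw [hg0] at this
    exact hout0 _ this
  have hp1 : 1 < p := by
    rcases Nat.lt_or_ge 1 p with h | h
    · exact h
    · have hp : p = 1 := by omega
      rw [hp] at hgp
      rw [hgp] at h1
      exact absurd h1 (by decide)
  have h2 : g (p + 1) = 3 ∨ g (p + 1) = 5 := by
    have := hadj p
    rw [hgp] at this
    exact hout1 _ this
  have hp2 : p + 1 < k := by
    rcases Nat.lt_or_ge (p + 1) k with h | h
    · exact h
    · have hp : p + 1 = k := by omega
      rw [hp, hgk] at h2
      exact absurd h2 (by decide)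
  obtain ⟨a, rfl⟩ : ∃ a, p = a + 2 := ⟨p - 2, by omega⟩
  obtain ⟨b, rfl⟩ : ∃ b, k = b + 2 := ⟨k - 2, by omega⟩
  have h3 : g (a + 1) = 2 ∨ g (a + 1) = 3 := by
    have := hadj (a + 1)
    rw [show a + 1 + 1 = a + 2 from rfl, hgp] at this
    exact hin1 _ this
  have h4 : g (b + 1) = 2 ∨ g (b + 1) = 4 := by
    have := hadj (b + 1)
    rw [show b + 1 + 1 = b + 2 from rfl, hgk] at this
    exact hin0 _ this
  have n1 : g (a + 1) ≠ g (b + 1) := hne _ _ (by omega) (by omega) (by omega)
  have n2 : g (a + 2 + 1) ≠ g 1 := hne _ _ (by omega) (by omega) (by omega)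
  have n3 : g (a + 2 + 1) ≠ g (a + 1) := hne _ _ (by omega) (by omega) (by omega)
  have n4 : g 1 ≠ g (b + 1) := hne _ _ (by omega) (by omega) (by omega)
  rcases h4 with h4 | h4
  · -- the predecessor of `0` is `2`, the predecessor of `1` is `3`
    have h5 : g (a + 1) = 3 := by
      rcases h3 with h | h
      · exact absurd (h.trans h4.symm) n1
      · exact h
    have h6 : g b = 3 ∨ g b = 4 := by
      have := hadj b
      rw [h4] at this
      exact hin2 _ this
    have hb : b ≠ a + 1 := by
      intro h
      have h7 := hadj b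
      rw [h4, h, h5] at h7
      have h8 : g (a + 2) = g (b + 1) := by rw [h]
      rw [hgp, h4] at h8
      exact absurd h8 (by decide)
    have h7 : g b = 4 := by
      rcases h6 with h | h
      · exact absurd (h.trans h5.symm) (hne _ _ (by omega) (by omega) hb)
      · exact h
    have hb1 : b ≠ 1 := by
      intro h
      omega
    have h8 : g 1 = 5 := by
      rcases h1 with h | h
      · exact absurd (h.trans h7.symm) (hne _ _ (by omega) (by omega) (Ne.symm hb1))
      · exact h
    rcases h2 with h | h
    · exact n3 (h.trans h5.symm)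
    · exact n2 (h.trans h8.symm)
  · -- the predecessor of `0` is `4`
    have h5 : g 1 = 5 := by
      rcases h1 with h | h
      · exact absurd (h.trans h4.symm) n4
      · exact h
    have h6 : g (a + 2 + 1) = 3 := by
      rcases h2 with h | h
      · exact h
      · exact absurd (h.trans h5.symm) n2
    have h7 : g (a + 1) = 2 := by
      rcases h3 with h | h
      · exact h
      · exact absurd (h6.trans h.symm) n3
    have h8 : g a = 3 ∨ g a = 4 := by
      have := hadj a
      rw [h7] at this
      exact hin2 _ this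
    rcases h8 with h | h
    · exact hne a (a + 2 + 1) (by omega) (by omega) (by omega) (h.trans h6.symm)
    · have hab : a ≠ b + 1 := by omega
      exact hne a (b + 1) (by omega) (by omega) hab (h.trans h4.symm)

/-- **Main theorem.** For `n = 6` and for every `n ≥ 8` there is a strongly connected digraph without
loops on `n` vertices which satisfies the Nash-Williams conditions and has two distinct vertices which
lie on no common directed cycle; in particular it has no Hamilton cycle. -/
theorem result (n : ℕ) (hn : n = 6 ∨ 8 ≤ n) :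
    ∃ G : Digraph (Fin n), (∀ v, ¬ G.Adj v v) ∧ StronglyConnected G ∧ NashWilliams G ∧
      (∃ x y : Fin n, x ≠ y ∧ ¬ OnCommonCycle G x y) ∧ ¬ Hamiltonian G := by
  rcases hn with rfl | hn
  · exact ⟨six, six_loopless, six_strong, six_nw, ⟨0, 1, by decide, six_no_cycle⟩,
      not_hamiltonian (by norm_num) six_no_cycle⟩
  · have h0 : 0 < n := by omega
    have h1 : n / 2 - 1 < n := by omega
    have hc : ¬ OnCommonCycle (fam n) ⟨0, h0⟩ ⟨n / 2 - 1, h1⟩ :=
      fam_no_cycle hn rfl (by simp only; omega)
    exact ⟨fam n, fam_loopless, fam_strong hn, fam_nw hn, ⟨_, _, by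
      rw [Ne, Fin.mk.injEq]; omega, hc⟩, not_hamiltonian (by omega) hc⟩

end Pool.Agent.Results.MP_c220a4_co.ExplicitFamily
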